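import Pool.Agent.W680.WH.Stm

/-!
# Project WHH (MP_af71ff_an): Moebius functional calculus
-/

set_option autoImplicit false

open scoped ComplexConjugate InnerProductSpace
open ContinuousLinearMap Filter

namespace Pool.Agent.W696.WH

open Pool.Agent.W680.WH

section
variable {H : Type} [NormedAddCommGroup H] [NormedSpace ℂ H]

lemma op_mul (φ : Mob) (B : H →L[ℂ] H) (hD : IsUnit (1 - conj φ.a • B)) :
    φ.op B * (1 - conj φ.a • B) = φ.c • (B - φ.a • (1 : H →L[ℂ] H)) := by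
  unfold Mob.op mob
  rw [smul_mul_assoc, mul_assoc, Ring.inverse_mul_cancel _ hD, mul_one]

lemma op_char (φ : Mob) (B Y : H →L[ℂ] H) (hD : IsUnit (1 - conj φ.a • B))
    (h : Y * (1 - conj φ.a • B) = φ.c • (B - φ.a • (1 : H →L[ℂ] H))) : φ.op B = Y := by
  unfold Mob.op mob
  rw [← smul_mul_assoc, ← h, mul_assoc, Ring.mul_inverse_cancel _ hD, mul_one]

lemma disc (a w : ℂ) (ha : ‖a‖ < 1) (hw : ‖w‖ < 1) :
    1 + w * a ≠ 0 ∧ ‖(conj a + w) / (1 + w * a)‖ < 1 := by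
  have hne : 1 + w * a ≠ 0 := by
    intro h
    have h1 : w * a = -1 := by linear_combination h
    have h2 : ‖w * a‖ = 1 := by rw [h1]; simp
    rw [norm_mul] at h2
    nlinarith [norm_nonneg a, norm_nonneg w]
  refine ⟨hne, ?_⟩
  rw [norm_div, div_lt_one (norm_pos_iff.mpr hne)]
  have h1 : ‖conj a + w‖ ^ 2 < ‖1 + w * a‖ ^ 2 := by
    have ha2 : Complex.normSq a < 1 := by
      rw [Complex.normSq_eq_norm_sq]; nlinarith [norm_nonneg a]
    have hw2 : Complex.normSq w < 1 := by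
      rw [Complex.normSq_eq_norm_sq]; nlinarith [norm_nonneg w]
    rw [← Complex.normSq_eq_norm_sq, ← Complex.normSq_eq_norm_sq]
    rw [Complex.normSq_apply] at ha2 hw2 ⊢
    rw [Complex.normSq_apply]
    simp only [Complex.add_re, Complex.add_im, Complex.conj_re, Complex.conj_im, Complex.mul_re,
      Complex.mul_im, Complex.one_re, Complex.one_im]
    nlinarith [mul_pos (sub_pos.mpr ha2) (sub_pos.mpr hw2)]
  exact lt_of_pow_lt_pow_left₀ 2 (norm_nonneg _) h1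

lemma unitM (A : H →L[ℂ] H) (hA : ∀ a : ℂ, ‖a‖ < 1 → IsUnit (1 - a • A)) (a w : ℂ)
    (ha : ‖a‖ < 1) (hw : ‖w‖ < 1) :
    IsUnit ((1 + w * a) • (1 : H →L[ℂ] H) - (conj a + w) • A) := by
  obtain ⟨hne, hlt⟩ := disc a w ha hw
  have h1 : (1 + w * a) • (1 : H →L[ℂ] H) - (conj a + w) • A =
      (algebraMap ℂ (H →L[ℂ] H) (1 + w * a)) * (1 - ((conj a + w) / (1 + w * a)) • A) := by
    rw [← Algebra.smul_def, smul_sub, smul_smul, mul_div_cancel₀ _ hne]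
  rw [h1]
  exact ((isUnit_iff_ne_zero.mpr hne).map (algebraMap ℂ (H →L[ℂ] H))).mul (hA _ hlt)

lemma conj_lt (a : ℂ) (ha : ‖a‖ < 1) : ‖conj a‖ < 1 := by rw [Complex.norm_conj]; exact ha

lemma unit_op (A : H →L[ℂ] H) (hA : ∀ a : ℂ, ‖a‖ < 1 → IsUnit (1 - a • A)) (φ : Mob) (b : ℂ)
    (hb : ‖b‖ < 1) : IsUnit (1 - b • φ.op A) := by
  have hD := hA (conj φ.a) (conj_lt _ φ.ha)
  have hw : ‖b * φ.c‖ < 1 := by rw [norm_mul, φ.hc, mul_one]; exact hb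
  have hM := unitM A hA φ.a (b * φ.c) φ.ha hw
  have h1 : (1 - b • φ.op A) * (1 - conj φ.a • A) =
      (1 + (b * φ.c) * φ.a) • (1 : H →L[ℂ] H) - (conj φ.a + b * φ.c) • A := by
    rw [sub_mul, one_mul, smul_mul_assoc, op_mul φ A hD]
    module
  rw [← h1] at hM
  have h2 : (1 - b • φ.op A) = ((1 - b • φ.op A) * (1 - conj φ.a • A)) *
      Ring.inverse (1 - conj φ.a • A) := by
    rw [mul_assoc, Ring.mul_inverse_cancel _ hD, mul_one]
  rw [h2]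
  exact hM.mul (IsUnit.ringInverse hD)

lemma one_sub_ne (a z : ℂ) (ha : ‖a‖ < 1) (hz : ‖z‖ < 1) : 1 - conj a * z ≠ 0 := by
  intro h
  have h1 : conj a * z = 1 := by linear_combination -h
  have h2 : ‖conj a * z‖ = 1 := by rw [h1]; simp
  rw [norm_mul, Complex.norm_conj] at h2
  nlinarith [norm_nonneg a, norm_nonneg z]

lemma comp_op (A : H →L[ℂ] H) (hA : ∀ a : ℂ, ‖a‖ < 1 → IsUnit (1 - a • A)) (φ ψ χ : Mob)
    (h : ∀ z : ℂ, ‖z‖ < 1 → φ.act (ψ.act z) = χ.act z) : χ.op A = φ.op (ψ.op A) := by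
  have hD2 := hA (conj ψ.a) (conj_lt _ ψ.ha)
  have hD3 := hA (conj χ.a) (conj_lt _ χ.ha)
  have hD1 := unit_op A hA ψ (conj φ.a) (conj_lt _ φ.ha)
  have hw : ‖conj φ.a * ψ.c‖ < 1 := by
    rw [norm_mul, ψ.hc, mul_one]; exact conj_lt _ φ.ha
  have hM := unitM A hA ψ.a (conj φ.a * ψ.c) ψ.ha hw
  have e1 := op_mul ψ A hD2
  have e2 := op_mul φ (ψ.op A) hD1
  -- the scalar identity
  have key : ∀ z : ℂ, ‖z‖ < 1 →
      φ.c * ((ψ.c + φ.a * conj ψ.a) * z - (ψ.c * ψ.a + φ.a)) * (1 - conj χ.a * z) =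
      χ.c * (z - χ.a) * ((1 + conj φ.a * ψ.c * ψ.a) - (conj ψ.a + conj φ.a * ψ.c) * z) := by
    intro z hz
    have hz2 := one_sub_ne ψ.a z ψ.ha hz
    have hz3 := one_sub_ne χ.a z χ.ha hz
    have hMz : (1 + conj φ.a * ψ.c * ψ.a) - (conj ψ.a + conj φ.a * ψ.c) * z ≠ 0 := by
      obtain ⟨hne, hlt⟩ := disc ψ.a (conj φ.a * ψ.c) ψ.ha hw
      intro h0
      have h1 : ((conj ψ.a + conj φ.a * ψ.c) / (1 + conj φ.a * ψ.c * ψ.a)) * z = 1 := by
        rw [div_mul_eq_mul_div, div_eq_one_iff_eq hne]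
        linear_combination -h0
      have h2 : ‖((conj ψ.a + conj φ.a * ψ.c) / (1 + conj φ.a * ψ.c * ψ.a)) * z‖ = 1 := by
        rw [h1]; simp
      rw [norm_mul] at h2
      nlinarith [norm_nonneg z, norm_nonneg ((conj ψ.a + conj φ.a * ψ.c) / (1 + conj φ.a * ψ.c * ψ.a))]
    have h0 := h z hz
    unfold Mob.act at h0
    have e3 : ψ.c * ((z - ψ.a) / (1 - conj ψ.a * z)) - φ.a =
        ((ψ.c + φ.a * conj ψ.a) * z - (ψ.c * ψ.a + φ.a)) / (1 - conj ψ.a * z) := by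
      rw [eq_div_iff hz2, sub_mul, mul_assoc, div_mul_cancel₀ _ hz2]
      ring
    have e4 : 1 - conj φ.a * (ψ.c * ((z - ψ.a) / (1 - conj ψ.a * z))) =
        ((1 + conj φ.a * ψ.c * ψ.a) - (conj ψ.a + conj φ.a * ψ.c) * z) / (1 - conj ψ.a * z) := by
      rw [eq_div_iff hz2, sub_mul, mul_assoc, mul_assoc, div_mul_cancel₀ _ hz2]
      ring
    rw [e3, e4, div_div_div_cancel_right₀ hz2, mul_div_assoc', mul_div_assoc',
      div_eq_div_iff hMz hz3] at h0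
    exact h0
  have k0 := key 0 (by simp)
  have k1 := key (1 / 2) (by norm_num)
  have k2 := key (-(1 / 2)) (by norm_num)
  obtain ⟨n1, hn1⟩ : ∃ n1, n1 = ψ.c + φ.a * conj ψ.a := ⟨_, rfl⟩
  obtain ⟨n0, hn0⟩ : ∃ n0, n0 = ψ.c * ψ.a + φ.a := ⟨_, rfl⟩
  obtain ⟨m0, hm0⟩ : ∃ m0, m0 = 1 + conj φ.a * ψ.c * ψ.a := ⟨_, rfl⟩
  obtain ⟨m1, hm1⟩ : ∃ m1, m1 = conj ψ.a + conj φ.a * ψ.c := ⟨_, rfl⟩
  rw [← hn1, ← hn0, ← hm0, ← hm1] at k0 k1 k2
  rw [← hm0, ← hm1] at hM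
  have c0 : φ.c * n0 = χ.c * χ.a * m0 := by linear_combination -k0
  have c2 : φ.c * n1 * conj χ.a = χ.c * m1 := by
    linear_combination (-2) * k1 + (-2) * k2 + 4 * k0
  have c1 : φ.c * n1 + φ.c * n0 * conj χ.a = χ.c * m0 + χ.c * χ.a * m1 := by
    linear_combination k1 - k2
  -- the operator identities
  have f1 : (φ.op (ψ.op A)) * (m0 • (1 : H →L[ℂ] H) - m1 • A) =
      φ.c • (n1 • A - n0 • (1 : H →L[ℂ] H)) := by
    have g1 : m0 • (1 : H →L[ℂ] H) - m1 • A =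
        (1 - conj φ.a • ψ.op A) * (1 - conj ψ.a • A) := by
      rw [sub_mul, one_mul, smul_mul_assoc, e1, hm0, hm1]
      module
    have g2 : n1 • A - n0 • (1 : H →L[ℂ] H) =
        (ψ.op A - φ.a • (1 : H →L[ℂ] H)) * (1 - conj ψ.a • A) := by
      rw [sub_mul, smul_mul_assoc, one_mul, e1, hn1, hn0]
      module
    rw [g1, g2, ← mul_assoc, e2, smul_mul_assoc]
  have f2 : (m0 • (1 : H →L[ℂ] H) - m1 • A) * (1 - conj χ.a • A) =
      (1 - conj χ.a • A) * (m0 • (1 : H →L[ℂ] H) - m1 • A) := by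
    simp only [sub_mul, mul_sub, smul_mul_assoc, mul_smul_comm, mul_one, one_mul]
    module
  have f3 : (φ.c • (n1 • A - n0 • (1 : H →L[ℂ] H))) * (1 - conj χ.a • A) =
      (χ.c • (A - χ.a • (1 : H →L[ℂ] H))) * (m0 • (1 : H →L[ℂ] H) - m1 • A) := by
    simp only [sub_mul, mul_sub, smul_mul_assoc, mul_smul_comm, mul_one, one_mul]
    linear_combination (norm := module) (-c2) • (A * A) + c1 • A - c0 • (1 : H →L[ℂ] H)
  apply op_char χ A _ hD3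
  have f4 : (φ.op (ψ.op A)) * (1 - conj χ.a • A) * (m0 • (1 : H →L[ℂ] H) - m1 • A) =
      (χ.c • (A - χ.a • (1 : H →L[ℂ] H))) * (m0 • (1 : H →L[ℂ] H) - m1 • A) := by
    rw [mul_assoc, ← f2, ← mul_assoc, f1, f3]
  exact hM.mul_right_cancel f4

end

theorem mobc : S_MOBC := by
  intro H _ _ _ A hA
  refine ⟨fun φ b hb => unit_op A hA φ b hb, fun φ ψ χ h => comp_op A hA φ ψ χ h, ?_⟩
  intro φ G
  have hD := hA (conj φ.a) (conj_lt _ φ.ha)
  have e1 := op_mul φ A hD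
  obtain ⟨g, hg⟩ : ∃ g : H →L[ℂ] H, g = (G : H →L[ℂ] H) := ⟨_, rfl⟩
  obtain ⟨g', hg'⟩ : ∃ g' : H →L[ℂ] H, g' = ((G⁻¹ : (H →L[ℂ] H)ˣ) : H →L[ℂ] H) := ⟨_, rfl⟩
  have h1 : g * g' = 1 := by rw [hg, hg']; exact G.mul_inv
  have h2 : g' * g = 1 := by rw [hg, hg']; exact G.inv_mul
  rw [← hg, ← hg']
  have e2 : 1 - conj φ.a • (g * A * g') = g * (1 - conj φ.a • A) * g' := by
    rw [mul_sub, sub_mul, mul_one, h1, mul_smul_comm, smul_mul_assoc]
  have e3 : g * A * g' - φ.a • (1 : H →L[ℂ] H) = g * (A - φ.a • (1 : H →L[ℂ] H)) * g' := by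
    rw [mul_sub, sub_mul, mul_smul_comm, smul_mul_assoc, mul_one, h1]
  apply op_char
  · rw [e2]
    have u1 : IsUnit g := by rw [hg]; exact G.isUnit
    have u2 : IsUnit g' := by rw [hg']; exact (G⁻¹).isUnit
    exact (u1.mul hD).mul u2
  · rw [e2, e3]
    calc g * φ.op A * g' * (g * (1 - conj φ.a • A) * g')
        = g * φ.op A * (g' * g) * (1 - conj φ.a • A) * g' := by simp only [mul_assoc]
      _ = g * (φ.op A * (1 - conj φ.a • A)) * g' := by rw [h2, mul_one]; simp only [mul_assoc]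
      _ = φ.c • (g * (A - φ.a • (1 : H →L[ℂ] H)) * g') := by
        rw [e1, mul_smul_comm, smul_mul_assoc]

end Pool.Agent.W696.WH
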